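import Pool.Agent.W541.MS.Fin
import Pool.Agent.W782.MS.RHO
import Pool.Agent.W782.MS.Y
import Pool.Agent.W782.MS.Y2

/-!
MP_099f24_an, Q1 in its negated form: an explicit local minimiser `u` of the Mumford-Shah energy
`∫ |∇u|^2 + H^1(S_u)` in a thin annular open set `Ω` of the plane whose discontinuity set is a closed
analytic curve; hence `Ω ∩ closure S_u` is not the union of the images of an admissible family of
arcs.

The proof: `Ω` is the image of the annulus `exp(-del) < |p| < exp(del)` under the conformal map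
`p - (2/15) p^3 + p^5/125`, `u = 10` on the inner side, `u = (A0/2) Re (p + 1/p)` on the outer side,
and minimality is shown by an explicit calibration.
-/

set_option autoImplicit false

open Set Metric Pool.Agent.W541.MS

namespace Pool.Agent.Results.MP_099f24_an.ClosedLoopMinimizer

theorem result :
    ∃ (Ω : Set ℂ) (u : ℂ → ℝ) (c : ℂ → ℂ),
      IsOpen Ω ∧ Bornology.IsBounded Ω ∧
      Differentiable ℂ c ∧ InjOn c (ball (0 : ℂ) (6 / 5)) ∧
      IsLocalMin Ω u ∧
      Ω ∩ closure (discSet Ω u) = c '' sphere (0 : ℂ) 1 ∧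
      ¬ ∃ (ι : Type) (_ : Countable ι) (A : ι → Arc Ω), Admissible A ∧
          Ω ∩ closure (discSet Ω u) = ⋃ i, (A i).image := by
  have h : S_RHO := Pool.Agent.W782.MS.t_RHO
  have hleb : S_LEB := Pool.Agent.W782.MS.t_LEB
  have hy1 : S_Y1 := Pool.Agent.W782.MS.t_Y1
  have hy2 : S_Y2 := Pool.Agent.W782.MS.t_Y2
  have hm : S_MAP := Pool.Agent.W22.MS.t_MAP
  obtain ⟨hO, hmin, hset, hno⟩ := fin h hleb hy1 hy2
  obtain ⟨hinj, hder, hann, -⟩ := hm
  have hd : Differentiable ℂ ff := fun p => (hder p).differentiableAt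
  refine ⟨Om, uu, ff, hO, ?_, hd, hinj, hmin, hset, hno⟩
  have hc : IsCompact (ff '' closedBall (0 : ℂ) (6 / 5)) :=
    (isCompact_closedBall _ _).image hd.continuous
  exact hc.isBounded.subset (image_mono (hann.trans ball_subset_closedBall))

end Pool.Agent.Results.MP_099f24_an.ClosedLoopMinimizer
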